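import Mathlib

set_option autoImplicit false

open Filter Topology Set

namespace Pool.Agent.H.MP_d4b900_gt

/-- the `m`-th group of columns -/
def G (m : ℕ) : Finset ℕ := Finset.Ico (2 ^ m) (2 ^ (m + 1))

lemma card_G (m : ℕ) : (G m).card = 2 ^ m := by
  simp [G, pow_succ]; omega

lemma log_of_mem_G {m j : ℕ} (h : j ∈ G m) : Nat.log 2 j = m := by
  simp only [G, Finset.mem_Ico] at h
  exact (Nat.log_eq_iff (Or.inr ⟨by norm_num, by
    have := Nat.pos_of_ne_zero (pow_ne_zero m (two_ne_zero (α := ℕ)))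
    omega⟩)).2 h

open Classical in
/-- number of columns `j` of the `m`-th group with `(j,d) ∈ S` -/
noncomputable def cnt (S : Set (ℕ × ℕ)) (m d : ℕ) : ℕ :=
  ((G m).filter (fun j => (j, d) ∈ S)).card

lemma cnt_mono {S T : Set (ℕ × ℕ)} (h : S ⊆ T) (m d : ℕ) : cnt S m d ≤ cnt T m d := by
  classical
  unfold cnt
  apply Finset.card_le_card
  intro j hj
  simp only [Finset.mem_filter] at hj ⊢
  exact ⟨hj.1, h hj.2⟩

lemma cnt_union (S T : Set (ℕ × ℕ)) (m d : ℕ) : cnt (S ∪ T) m d ≤ cnt S m d + cnt T m d := by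
  classical
  unfold cnt
  refine le_trans (Finset.card_le_card ?_) (Finset.card_union_le _ _)
  intro j hj
  simp only [Finset.mem_filter, Finset.mem_union, Set.mem_union] at hj ⊢
  tauto

lemma cnt_add_compl (S : Set (ℕ × ℕ)) (m d : ℕ) : cnt S m d + cnt Sᶜ m d = 2 ^ m := by
  classical
  unfold cnt
  rw [← card_G m]
  simpa using Finset.card_filter_add_card_filter_not (s := G m) (fun j => (j, d) ∈ S)

lemma cnt_eq_zero {S : Set (ℕ × ℕ)} {m d : ℕ} (h : ∀ j ∈ G m, (j, d) ∉ S) : cnt S m d = 0 := by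
  classical
  unfold cnt
  rw [Finset.card_eq_zero, Finset.filter_eq_empty_iff]
  intro j hj
  exact h j hj

/-- null sets -/
def Small (S : Set (ℕ × ℕ)) : Prop :=
  ∀ ε : ℝ, 0 < ε → ∀ᶠ m in atTop, ∀ d, (cnt S m d : ℝ) ≤ ε * 2 ^ m

/-- every column is eventually constant -/
def Tame (S : Set (ℕ × ℕ)) : Prop :=
  ∀ j, (∀ᶠ d in atTop, (j, d) ∈ S) ∨ (∀ᶠ d in atTop, (j, d) ∉ S)

/-- the density of `S` in the groups is asymptotically `0` or `1` -/
def Dich (S : Set (ℕ × ℕ)) : Prop :=
  ∀ ε : ℝ, 0 < ε → ∀ᶠ m in atTop, ∀ d,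
    (cnt S m d : ℝ) ≤ ε * 2 ^ m ∨ (cnt Sᶜ m d : ℝ) ≤ ε * 2 ^ m

lemma Small.dich {S : Set (ℕ × ℕ)} (h : Small S) : Dich S := fun ε hε =>
  (h ε hε).mono fun _ hm d => Or.inl (hm d)

lemma Dich.compl {S : Set (ℕ × ℕ)} (h : Dich S) : Dich Sᶜ := fun ε hε =>
  (h ε hε).mono fun m hm d => by
    rw [compl_compl]
    exact (hm d).symm

lemma Tame.compl {S : Set (ℕ × ℕ)} (h : Tame S) : Tame Sᶜ := fun j => by
  rcases h j with h | h
  · exact Or.inr (h.mono fun d hd => by simpa using hd)
  · exact Or.inl (h.mono fun d hd => by simpa using hd)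

lemma Tame.inter {S T : Set (ℕ × ℕ)} (hS : Tame S) (hT : Tame T) : Tame (S ∩ T) := fun j => by
  rcases hS j with h | h
  · rcases hT j with h' | h'
    · exact Or.inl ((h.and h').mono fun d hd => hd)
    · exact Or.inr (h'.mono fun d hd hd' => hd hd'.2)
  · exact Or.inr (h.mono fun d hd hd' => hd hd'.1)

lemma Small.mono {S T : Set (ℕ × ℕ)} (h : Small T) (hST : S ⊆ T) : Small S := fun ε hε =>
  (h ε hε).mono fun m hm d => le_trans (by exact_mod_cast cnt_mono hST m d) (hm d)

/-- the Boolean algebra -/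
def BA : Type := {S : Set (ℕ × ℕ) // Tame S ∧ Dich S}

/-- the column `j` -/
def col (j : ℕ) : Set (ℕ × ℕ) := {x | x.1 = j}

lemma tame_col (j : ℕ) : Tame (col j) := fun i => by
  by_cases h : i = j
  · left
    exact Eventually.of_forall fun d => h
  · right
    exact Eventually.of_forall fun d => h

lemma cnt_col_le (j m d : ℕ) : cnt (col j) m d ≤ 1 := by
  classical
  unfold cnt
  rw [Finset.card_le_one]
  intro a ha b hb
  simp only [Finset.mem_filter, col, Set.mem_setOf_eq] at ha hb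
  rw [ha.2, hb.2]

lemma small_of_bdd {S : Set (ℕ × ℕ)} {J : ℕ} (h : ∀ x ∈ S, x.1 < J) : Small S := fun ε hε => by
  filter_upwards [eventually_ge_atTop J] with m hm d
  rw [cnt_eq_zero]
  · simp; positivity
  · intro j hj hjS
    have h1 := h _ hjS
    simp only [G, Finset.mem_Ico] at hj
    have := Nat.lt_two_pow_self (n := m)
    simp at h1
    omega

lemma small_col (j : ℕ) : Small (col j) :=
  small_of_bdd (J := j + 1) fun x hx => by
    have : x.1 = j := hx
    omega

def colB (j : ℕ) : BA := ⟨col j, tame_col j, (small_col j).dich⟩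

/-- below a function of the group number -/
def Lg (g : ℕ → ℕ) : Set (ℕ × ℕ) := {x | x.2 < g (Nat.log 2 x.1)}

lemma tame_Lg (g : ℕ → ℕ) : Tame (Lg g) := fun j => by
  right
  filter_upwards [eventually_ge_atTop (g (Nat.log 2 j))] with d hd h
  exact absurd h (not_lt.2 hd)

lemma dich_Lg (g : ℕ → ℕ) : Dich (Lg g) := fun ε hε => by
  refine Eventually.of_forall fun m d => ?_
  by_cases h : d < g m
  · right
    rw [cnt_eq_zero]
    · simp; positivity
    · intro j hj hjS
      apply hjS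
      show d < g (Nat.log 2 j)
      rw [log_of_mem_G hj]
      exact h
  · left
    rw [cnt_eq_zero]
    · simp; positivity
    · intro j hj hjS
      apply h
      have : d < g (Nat.log 2 j) := hjS
      rwa [log_of_mem_G hj] at this

def LgB (g : ℕ → ℕ) : BA := ⟨Lg g, tame_Lg g, dich_Lg g⟩

/-- the ideal defining the space -/
def Idl (S : Set (ℕ × ℕ)) : Prop := Small S ∨ ∃ g, S = Lg g

/-- the set of columns below `J` -/
def bel (J : ℕ) : Set (ℕ × ℕ) := {x | x.1 < J}

lemma tame_bel (J : ℕ) : Tame (bel J) := fun i => by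
  by_cases h : i < J
  · left
    exact Eventually.of_forall fun d => h
  · right
    exact Eventually.of_forall fun d => h

lemma small_bel (J : ℕ) : Small (bel J) := small_of_bdd (J := J) fun x hx => hx

lemma bel_not_mem {𝒱 : Ultrafilter (ℕ × ℕ)} (h : ∀ j, col j ∉ 𝒱) (J : ℕ) : bel J ∉ 𝒱 := by
  induction J with
  | zero =>
    intro h0
    have : bel 0 = ∅ := by ext x; simp [bel]
    rw [this] at h0
    exact 𝒱.empty_notMem h0
  | succ J ih =>
    intro h1
    have : bel (J + 1) = bel J ∪ col J := by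
      ext x; simp [bel, col]; omega
    rw [this, Ultrafilter.union_mem_iff] at h1
    rcases h1 with h1 | h1
    · exact ih h1
    · exact h J h1

lemma bel_not_mem' {𝒱 : Ultrafilter (ℕ × ℕ)} (J : ℕ) (h : ∀ j < J, col j ∉ 𝒱) : bel J ∉ 𝒱 := by
  induction J with
  | zero =>
    intro h0
    have : bel 0 = ∅ := by ext x; simp [bel]
    rw [this] at h0
    exact 𝒱.empty_notMem h0
  | succ J ih =>
    intro h1
    have : bel (J + 1) = bel J ∪ col J := by
      ext x; simp [bel, col]; omega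
    rw [this, Ultrafilter.union_mem_iff] at h1
    rcases h1 with h1 | h1
    · exact ih (fun j hj => h j (by omega)) h1
    · exact h J (by omega) h1

end Pool.Agent.H.MP_d4b900_gt
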