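import Pool.Agent.H.MP_d4b900_gt.Base

set_option autoImplicit false

open Filter Topology Set

namespace Pool.Agent.H.MP_d4b900_gt

lemma cnt_zero_of_ge {S : Set (ℕ × ℕ)} {J m d : ℕ} (h : ∀ x ∈ S, J ≤ x.1) (hJ : 2 ^ (m + 1) ≤ J) :
    cnt S m d = 0 := by
  apply cnt_eq_zero
  intro j hj hjS
  have := h _ hjS
  simp only [G, Finset.mem_Ico] at hj
  simp at this
  omega

lemma sel (𝒱 : Ultrafilter (ℕ × ℕ)) (k : ℕ) (hbel : bel (2 ^ k) ∉ 𝒱)
    (h : ∃ C : Set (ℕ × ℕ), Tame C ∧ Small C ∧ C ∈ 𝒱) :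
    ∃ N : Set (ℕ × ℕ), Tame N ∧ Small N ∧ N ∈ 𝒱 ∧ (∀ x ∈ N, 2 ^ k ≤ x.1) ∧
      (∀ m d, (cnt N m d : ℝ) ≤ (1 / 2) ^ k * 2 ^ m) := by
  by_cases hcol : ∃ j, col j ∈ 𝒱
  · obtain ⟨j, hj⟩ := hcol
    have hjk : 2 ^ k ≤ j := by
      by_contra hlt
      apply hbel
      filter_upwards [hj] with x hx
      have : x.1 = j := hx
      show x.1 < 2 ^ k
      omega
    refine ⟨col j, tame_col j, small_col j, hj, fun x hx => ?_, fun m d => ?_⟩
    · have : x.1 = j := hx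
      omega
    · by_cases hm : k ≤ m
      · have h1 : (cnt (col j) m d : ℝ) ≤ 1 := by exact_mod_cast cnt_col_le j m d
        refine h1.trans ?_
        obtain ⟨l, rfl⟩ := Nat.exists_eq_add_of_le hm
        rw [pow_add, ← mul_assoc, ← mul_pow]
        norm_num
        exact one_le_pow₀ (by norm_num)
      · have : cnt (col j) m d = 0 := by
          refine cnt_zero_of_ge (J := 2 ^ k) (fun x hx => ?_) (Nat.pow_le_pow_right (by norm_num) (by omega))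
          have : x.1 = j := hx
          omega
        rw [this]
        simp
  · push Not at hcol
    obtain ⟨C, hCt, hCs, hC⟩ := h
    obtain ⟨M, hM⟩ := (hCs ((1 / 2) ^ k) (by positivity)).exists_forall_of_atTop
    have hb := bel_not_mem hcol (2 ^ (max M k))
    refine ⟨C ∩ (bel (2 ^ (max M k)))ᶜ, hCt.inter (tame_bel _).compl, hCs.mono inter_subset_left,
      inter_mem hC (Ultrafilter.compl_mem_iff_notMem.2 hb), fun x hx => ?_, fun m d => ?_⟩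
    · have h1 : ¬ x.1 < 2 ^ (max M k) := hx.2
      have h2 : 2 ^ k ≤ 2 ^ (max M k) := Nat.pow_le_pow_right (by norm_num) (le_max_right _ _)
      omega
    · by_cases hm : max M k ≤ m
      · exact le_trans (by exact_mod_cast cnt_mono inter_subset_left m d)
          (hM m ((le_max_left _ _).trans hm) d)
      · have : cnt (C ∩ (bel (2 ^ (max M k)))ᶜ) m d = 0 := by
          refine cnt_zero_of_ge (J := 2 ^ (max M k)) (fun x hx => ?_)
            (Nat.pow_le_pow_right (by norm_num) (by omega))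
          have h1 : ¬ x.1 < 2 ^ (max M k) := hx.2
          omega
        rw [this]
        simp

lemma tame_iUnion {N : ℕ → Set (ℕ × ℕ)} (ht : ∀ k, Tame (N k)) (hge : ∀ k, ∀ x ∈ N k, 2 ^ k ≤ x.1) :
    Tame (⋃ k, N k) := fun j => by
  by_cases h : ∃ k, ∀ᶠ d in atTop, (j, d) ∈ N k
  · obtain ⟨k, hk⟩ := h
    left
    exact hk.mono fun d hd => mem_iUnion.2 ⟨k, hd⟩
  · right
    have h' : ∀ k, ∀ᶠ d in atTop, (j, d) ∉ N k := fun k =>
      (ht k j).resolve_left (not_exists.1 h k)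
    have h'' : ∀ᶠ d in atTop, ∀ k ∈ Finset.range (j + 1), (j, d) ∉ N k := by
      rw [Finset.eventually_all]
      exact fun k _ => h' k
    filter_upwards [h''] with d hd hmem
    obtain ⟨k, hk⟩ := mem_iUnion.1 hmem
    have h1 := hge k _ hk
    have h2 := Nat.lt_two_pow_self (n := k)
    simp at h1
    exact hd k (Finset.mem_range.2 (by omega)) hk

lemma cnt_iUnion_le {N : ℕ → Set (ℕ × ℕ)} (hge : ∀ k, ∀ x ∈ N k, 2 ^ k ≤ x.1) (m d : ℕ) :
    cnt (⋃ k, N k) m d ≤ ∑ k ∈ Finset.range (m + 1), cnt (N k) m d := by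
  classical
  unfold cnt
  refine le_trans (Finset.card_le_card ?_) Finset.card_biUnion_le
  intro j hj
  simp only [Finset.mem_filter, mem_iUnion, Finset.mem_biUnion, Finset.mem_range] at hj ⊢
  obtain ⟨hjG, k, hk⟩ := hj
  refine ⟨k, ?_, hjG, hk⟩
  have h1 := hge k _ hk
  simp only [G, Finset.mem_Ico] at hjG
  simp at h1
  have h2 : 2 ^ k < 2 ^ (m + 1) := by omega
  exact (Nat.pow_lt_pow_iff_right (by norm_num)).1 h2

lemma small_iUnion {N : ℕ → Set (ℕ × ℕ)} (hs : ∀ k, Small (N k))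
    (hge : ∀ k, ∀ x ∈ N k, 2 ^ k ≤ x.1)
    (hc : ∀ k m d, (cnt (N k) m d : ℝ) ≤ (1 / 2) ^ k * 2 ^ m) :
    Small (⋃ k, N k) := fun ε hε => by
  obtain ⟨K, hK⟩ : ∃ K : ℕ, (1 / 2 : ℝ) ^ K < ε / 4 :=
    exists_pow_lt_of_lt_one (by positivity) (by norm_num)
  have h1 : ∀ᶠ m in atTop, ∀ k ∈ Finset.range K, ∀ d, (cnt (N k) m d : ℝ) ≤ (ε / (2 * (K + 1))) * 2 ^ m := by
    rw [Finset.eventually_all]
    exact fun k _ => hs k _ (by positivity)
  filter_upwards [h1, eventually_ge_atTop K] with m hm hKm d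
  have h2 : (cnt (⋃ k, N k) m d : ℝ) ≤ ∑ k ∈ Finset.range (m + 1), (cnt (N k) m d : ℝ) := by
    exact_mod_cast cnt_iUnion_le hge m d
  refine h2.trans ?_
  have h3 : Finset.range (m + 1) = Finset.range K ∪ Finset.Ico K (m + 1) := by
    ext x; simp; omega
  rw [h3, Finset.sum_union (by
    rw [Finset.disjoint_left]; intro x hx; simp at hx ⊢; omega)]
  have h4 : ∑ k ∈ Finset.range K, (cnt (N k) m d : ℝ) ≤ K * ((ε / (2 * (K + 1))) * 2 ^ m) := by
    calc ∑ k ∈ Finset.range K, (cnt (N k) m d : ℝ)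
        ≤ ∑ k ∈ Finset.range K, (ε / (2 * (K + 1))) * 2 ^ m := Finset.sum_le_sum fun k hk => hm k hk d
      _ = K * ((ε / (2 * (K + 1))) * 2 ^ m) := by simp
  have h5 : ∑ k ∈ Finset.Ico K (m + 1), (cnt (N k) m d : ℝ) ≤ (2 * (1 / 2) ^ K) * 2 ^ m := by
    calc ∑ k ∈ Finset.Ico K (m + 1), (cnt (N k) m d : ℝ)
        ≤ ∑ k ∈ Finset.Ico K (m + 1), (1 / 2 : ℝ) ^ k * 2 ^ m := Finset.sum_le_sum fun k _ => hc k m d
      _ = (∑ k ∈ Finset.Ico K (m + 1), (1 / 2 : ℝ) ^ k) * 2 ^ m := by rw [Finset.sum_mul]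
      _ ≤ (2 * (1 / 2) ^ K) * 2 ^ m := by
        apply mul_le_mul_of_nonneg_right _ (by positivity)
        rw [geom_sum_Ico (by norm_num) (by omega)]
        have : (0 : ℝ) < (1 / 2) ^ (m + 1) := by positivity
        have h6 : ((1 / 2 : ℝ) ^ (m + 1) - (1 / 2) ^ K) / (1 / 2 - 1) = 2 * (1 / 2) ^ K - 2 * (1 / 2) ^ (m + 1) := by
          ring
        rw [h6]
        linarith
  have h7 : (K : ℝ) * ((ε / (2 * (K + 1))) * 2 ^ m) ≤ (ε / 2) * 2 ^ m := by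
    rw [← mul_assoc]
    apply mul_le_mul_of_nonneg_right _ (by positivity)
    have hK0 : (0 : ℝ) ≤ K := Nat.cast_nonneg K
    rw [← mul_div_assoc, div_le_iff₀ (by positivity)]
    nlinarith
  have h8 : (2 * (1 / 2 : ℝ) ^ K) * 2 ^ m ≤ (ε / 2) * 2 ^ m := by
    apply mul_le_mul_of_nonneg_right _ (by positivity)
    linarith
  linarith

/-- diagonal lemma for null-type ultrafilters -/
lemma diag_small (𝒱 : ℕ → Ultrafilter (ℕ × ℕ))
    (h : ∃ᶠ n in atTop, ∃ C : Set (ℕ × ℕ), Tame C ∧ Small C ∧ C ∈ 𝒱 n) :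
    ∃ D : Set (ℕ × ℕ), Tame D ∧ Small D ∧ ∃ᶠ n in atTop, D ∈ 𝒱 n := by
  by_cases hcol : ∃ j, ∃ᶠ n in atTop, col j ∈ 𝒱 n
  · obtain ⟨j, hj⟩ := hcol
    exact ⟨col j, tame_col j, small_col j, hj⟩
  · push Not at hcol
    have hbel : ∀ J, ∀ᶠ n in atTop, bel J ∉ 𝒱 n := by
      intro J
      have : ∀ᶠ n in atTop, ∀ j ∈ Finset.range J, col j ∉ 𝒱 n := by
        rw [Finset.eventually_all]
        exact fun j _ => hcol j
      filter_upwards [this] with n hn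
      exact bel_not_mem' J fun j hj => hn j (Finset.mem_range.2 hj)
    have hsel : ∀ k : ℕ, ∃ᶠ n in atTop, ∃ N : Set (ℕ × ℕ), Tame N ∧ Small N ∧ N ∈ 𝒱 n ∧
        (∀ x ∈ N, 2 ^ k ≤ x.1) ∧ (∀ m d, (cnt N m d : ℝ) ≤ (1 / 2) ^ k * 2 ^ m) := by
      intro k
      exact (h.and_eventually (hbel (2 ^ k))).mono fun n hn => sel (𝒱 n) k hn.2 hn.1
    obtain ⟨φ, hφ, hN⟩ := extraction_forall_of_frequently hsel
    choose N hNt hNs hNm hNge hNcnt using hN
    refine ⟨⋃ k, N k, tame_iUnion hNt hNge, small_iUnion hNs hNge hNcnt, ?_⟩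
    have h1 : ∀ k, (⋃ k, N k) ∈ 𝒱 (φ k) := fun k =>
      mem_of_superset (hNm k) (subset_iUnion N k)
    exact hφ.tendsto_atTop.frequently (Eventually.of_forall h1).frequently

/-- diagonal lemma for bulk-type ultrafilters -/
lemma diag_Lg (𝒱 : ℕ → Ultrafilter (ℕ × ℕ)) (g : ℕ → ℕ → ℕ)
    (h : ∃ᶠ n in atTop, Lg (g n) ∈ 𝒱 n ∧ bel (2 ^ n) ∉ 𝒱 n) :
    ∃ g' : ℕ → ℕ, ∃ᶠ n in atTop, Lg g' ∈ 𝒱 n := by
  refine ⟨fun m => (Finset.range (m + 1)).sup (fun k => g k m), h.mono fun n hn => ?_⟩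
  have h1 : Lg (g n) ∩ (bel (2 ^ n))ᶜ ∈ 𝒱 n :=
    inter_mem hn.1 (Ultrafilter.compl_mem_iff_notMem.2 hn.2)
  filter_upwards [h1] with x hx
  have h2 : x.2 < g n (Nat.log 2 x.1) := hx.1
  have h3 : ¬ x.1 < 2 ^ n := hx.2
  show x.2 < (Finset.range (Nat.log 2 x.1 + 1)).sup (fun k => g k (Nat.log 2 x.1))
  have h4 : n ≤ Nat.log 2 x.1 := by
    apply (Nat.le_log_iff_pow_le (by norm_num) ?_).2 (by omega)
    intro h0
    rw [h0] at h3
    exact h3 (by positivity)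
  refine lt_of_lt_of_le h2 ?_
  exact Finset.le_sup (f := fun k => g k (Nat.log 2 x.1)) (Finset.mem_range.2 (by omega))

end Pool.Agent.H.MP_d4b900_gt
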