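import Pool.Agent.H.MP_d4b900_gt.Main

set_option autoImplicit false

open Filter Topology Set

namespace Pool.Agent.H.MP_d4b900_gt

lemma cluster_V (u : ℕ → V) : ∃ x : V, MapClusterPt x atTop u := by
  by_cases h : ∃ᶠ n in atTop, ∃ x : X0, u n = Sum.inl x
  · obtain ⟨φ, hφ, hu⟩ := extraction_of_frequently_atTop h
    choose v hv using hu
    obtain ⟨x, hx⟩ := cluster v
    refine ⟨Sum.inl x, MapClusterPt.of_comp (φ := φ) (p := atTop) hφ.tendsto_atTop ?_⟩
    have h1 : u ∘ φ = Sum.inl ∘ v := funext hv
    rw [h1]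
    exact hx.tendsto_comp (continuous_inl.tendsto x)
  · have h' : ∃ᶠ n in atTop, ∃ x : OnePoint E, u n = Sum.inr x := by
      rw [not_frequently] at h
      refine (h.mono fun n hn => ?_).frequently
      rcases hn' : u n with x | x
      · exact absurd ⟨x, hn'⟩ hn
      · exact ⟨x, rfl⟩
    obtain ⟨φ, hφ, hu⟩ := extraction_of_frequently_atTop h'
    choose v hv using hu
    obtain ⟨x, -, hx⟩ := isCompact_univ.exists_mapClusterPt_of_frequently (l := atTop) (f := v)
      (Frequently.of_forall fun n => mem_univ _)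
    refine ⟨Sum.inr x, MapClusterPt.of_comp (φ := φ) (p := atTop) hφ.tendsto_atTop ?_⟩
    have h1 : u ∘ φ = Sum.inr ∘ v := funext hv
    rw [h1]
    exact hx.tendsto_comp (continuous_inr.tendsto x)

/-- indicator of a basic clopen set -/
noncomputable def ind (C : BA) : C(X0, ℝ) :=
  ⟨fun χ => if χ.1 C = true then 1 else 0, by
    have h1 : Continuous (fun b : Bool => if b = true then (1 : ℝ) else 0) :=
      continuous_of_discreteTopology
    exact h1.comp ((continuous_apply C).comp continuous_subtype_val)⟩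

lemma ind_apply (C : BA) (χ : X0) : ind C χ = if χ.1 C = true then 1 else 0 := rfl

lemma ind_pt_infty (C : BA) (j : ℕ) [Decidable (∀ᶠ d in atTop, (j, d) ∈ C.1)] :
    ind C (pt j OnePoint.infty) = if ∀ᶠ d in atTop, (j, d) ∈ C.1 then 1 else 0 := by
  rw [ind_apply]
  by_cases h : ∀ᶠ d in atTop, (j, d) ∈ C.1
  · rw [if_pos ((pt_infty_apply j C).2 h), if_pos h]
  · rw [if_neg (fun h' => h ((pt_infty_apply j C).1 h')), if_neg h]

/-- the averages of the indicator of a member of the ideal over the limit layer tend to zero -/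
lemma tendsto_avg_infty (C : BA) (hC : Idl C.1) :
    Tendsto (fun m => avg (ind C) m OnePoint.infty) atTop (𝓝 0) := by
  classical
  have h0 : ∀ m, avg (ind C) m OnePoint.infty =
      (((G m).filter (fun j => ∀ᶠ d in atTop, (j, d) ∈ C.1)).card : ℝ) / 2 ^ m := by
    intro m
    unfold avg
    congr 1
    simp only [ind_pt_infty]
    rw [Finset.sum_boole]
  have h1 : ∀ m, ∃ d, ((G m).filter (fun j => ∀ᶠ d in atTop, (j, d) ∈ C.1)).card ≤ cnt C.1 m d := by
    intro m
    have h2 : ∀ᶠ d in atTop, ∀ j ∈ (G m).filter (fun j => ∀ᶠ d in atTop, (j, d) ∈ C.1), (j, d) ∈ C.1 := by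
      rw [Finset.eventually_all]
      intro j hj
      exact (Finset.mem_filter.1 hj).2
    obtain ⟨d, hd⟩ := h2.exists
    refine ⟨d, ?_⟩
    unfold cnt
    apply Finset.card_le_card
    intro j hj
    rw [Finset.mem_filter]
    exact ⟨(Finset.mem_filter.1 hj).1, hd j hj⟩
  rcases hC with hC | ⟨g, hg⟩
  · rw [Metric.tendsto_nhds]
    intro ε hε
    filter_upwards [hC (ε / 2) (by positivity)] with m hm
    obtain ⟨d, hd⟩ := h1 m
    have h3 : (((G m).filter (fun j => ∀ᶠ d in atTop, (j, d) ∈ C.1)).card : ℝ) ≤ ε / 2 * 2 ^ m :=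
      le_trans (by exact_mod_cast hd) (hm d)
    rw [Real.dist_eq, sub_zero, h0, abs_of_nonneg (by positivity), div_lt_iff₀ (by positivity)]
    have h4 : (0 : ℝ) < 2 ^ m := by positivity
    nlinarith
  · have h2 : ∀ m, avg (ind C) m OnePoint.infty = 0 := by
      intro m
      rw [h0]
      have h3 : (G m).filter (fun j => ∀ᶠ d in atTop, (j, d) ∈ C.1) = ∅ := by
        rw [Finset.filter_eq_empty_iff]
        intro j _ hj
        rw [hg] at hj
        obtain ⟨d, hd, hd'⟩ := (hj.and (eventually_ge_atTop (g (Nat.log 2 j)))).exists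
        have : d < g (Nat.log 2 j) := hd
        omega
      rw [h3]
      simp
    simp only [h2]
    exact tendsto_const_nhds

/-- the sequence without cluster points -/
def bad (m : ℕ) : YY := iR (((m, OnePoint.infty) : E) : OnePoint E)

lemma no_cluster (y : YY) : ¬ MapClusterPt y atTop bad := by
  intro hy
  have h1 : ∀ f : C(V, ℝ), ¬ ∀ᶠ m in atTop, Tfun f (bad m) < Tfun f y / 2 ∧ 0 < Tfun f y := by
    intro f hf
    have h2 : {w : YY | Tfun f y / 2 < Tfun f w} ∈ 𝓝 y ∨ Tfun f y ≤ 0 := by
      by_cases h : 0 < Tfun f y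
      · left
        exact (isOpen_lt continuous_const (continuous_Tfun f)).mem_nhds (by
          show Tfun f y / 2 < Tfun f y
          linarith)
      · right
        exact not_lt.1 h
    rcases h2 with h2 | h2
    · obtain ⟨m, hm, hm'⟩ := (((mapClusterPt_iff_frequently.1 hy) _ h2).and_eventually hf).exists
      have : Tfun f y / 2 < Tfun f (bad m) := hm
      linarith [hm'.1]
    · obtain ⟨m, hm⟩ := hf.exists
      linarith [hm.2]
  have hbad : ∀ m, bad m = (Sum.inr (((m, OnePoint.infty) : E) : OnePoint E) : V) := fun _ => rfl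
  have hcases : (∃ x : X0, y = (Sum.inl x : V)) ∨ (∃ z : OnePoint E, y = (Sum.inr z : V)) := by
    change V at y
    rcases y with x | z
    · exact Or.inl ⟨x, rfl⟩
    · exact Or.inr ⟨z, rfl⟩
  rcases hcases with ⟨x, rfl⟩ | ⟨z, rfl⟩
  · obtain ⟨𝒱, h𝒱, C, hC, hCV⟩ := x.2
    apply h1 (extL (ind C))
    have h3 : Tfun (extL (ind C)) (Sum.inl x) = 1 := by
      rw [Tfun_extL_inl, ind_apply, if_pos]
      rw [← h𝒱]
      exact ev_true.2 hCV
    have h4 := (tendsto_avg_infty C hC).eventually (gt_mem_nhds (show (0 : ℝ) < 1 / 2 by norm_num))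
    filter_upwards [h4] with m hm
    rw [h3, hbad, Tfun_extL_coe]
    exact ⟨hm, by norm_num⟩
  · induction z using OnePoint.rec with
    | infty =>
      apply h1 (extR (ContinuousMap.const _ 1))
      refine Eventually.of_forall fun m => ?_
      rw [hbad, Tfun_extR_coe, Tfun_extR_infty]
      simp
    | coe e =>
      apply h1 (extR (blk e.1))
      filter_upwards [eventually_gt_atTop e.1] with m hm
      rw [hbad, Tfun_extR_coe, Tfun_extR_coe, blk_coe, blk_coe, blk_infty]
      have h5 : m ≠ e.1 := by omega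
      simp [h5]

lemma continuous_T :
    @Continuous C(V, ℝ) C(YY, ℝ)
      (TopologicalSpace.induced (fun f : C(V, ℝ) => (f : V → ℝ)) inferInstance)
      (TopologicalSpace.induced (fun g : C(YY, ℝ) => (g : YY → ℝ)) inferInstance) T := by
  rw [@continuous_induced_rng, @continuous_pi_iff]
  intro w
  change V at w
  rcases w with x | z
  · exact continuous_eval (Sum.inl x : V)
  · induction z using OnePoint.rec with
    | infty => exact continuous_eval (Sum.inr OnePoint.infty : V)
    | coe e =>
      let _ : TopologicalSpace C(V, ℝ) :=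
        TopologicalSpace.induced (fun f : C(V, ℝ) => (f : V → ℝ)) inferInstance
      show Continuous (fun f : C(V, ℝ) => f (Sum.inr (e : OnePoint E)) - f (Sum.inr OnePoint.infty)
        + (∑ j ∈ G e.1, f (Sum.inl (pt j e.2))) / 2 ^ e.1)
      refine ((continuous_eval _).sub (continuous_eval _)).add (Continuous.div_const ?_ _)
      exact continuous_finsetSum _ fun j _ => continuous_eval _

lemma continuous_T_symm :
    @Continuous C(YY, ℝ) C(V, ℝ)
      (TopologicalSpace.induced (fun g : C(YY, ℝ) => (g : YY → ℝ)) inferInstance)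
      (TopologicalSpace.induced (fun f : C(V, ℝ) => (f : V → ℝ)) inferInstance) T.symm := by
  rw [@continuous_induced_rng, @continuous_pi_iff]
  intro w
  rcases w with x | z
  · exact continuous_eval (iL x)
  · induction z using OnePoint.rec with
    | infty => exact continuous_eval (iR OnePoint.infty)
    | coe e =>
      let _ : TopologicalSpace C(YY, ℝ) :=
        TopologicalSpace.induced (fun f : C(YY, ℝ) => (f : YY → ℝ)) inferInstance
      show Continuous (fun f : C(YY, ℝ) => f (iR (e : OnePoint E)) + f (iR OnePoint.infty)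
        - (∑ j ∈ G e.1, f (iL (pt j e.2))) / 2 ^ e.1)
      refine ((continuous_eval _).add (continuous_eval _)).sub (Continuous.div_const ?_ _)
      exact continuous_finsetSum _ fun j _ => continuous_eval _

end Pool.Agent.H.MP_d4b900_gt
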