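import Pool.Agent.H.MP_d4b900_gt.Space

set_option autoImplicit false

open Filter Topology Set

namespace Pool.Agent.H.MP_d4b900_gt

/-- disjoint sums of Tychonoff spaces are Tychonoff -/
lemma t35_sum (α β : Type) [TopologicalSpace α] [TopologicalSpace β] [T35Space α] [T35Space β] :
    T35Space (α ⊕ β) := by
  have h1 : CompletelyRegularSpace (α ⊕ β) := by
    constructor
    intro x K hK hx
    rcases x with a | b
    · obtain ⟨f, hf, hfa, hfK⟩ := CompletelyRegularSpace.completely_regular a (Sum.inl ⁻¹' K)
        (hK.preimage continuous_inl) hx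
      refine ⟨Sum.elim f (fun _ => 1), continuous_sumElim.2 ⟨hf, continuous_const⟩, by simpa using hfa, ?_⟩
      intro y hy
      rcases y with y | y
      · exact hfK hy
      · rfl
    · obtain ⟨f, hf, hfa, hfK⟩ := CompletelyRegularSpace.completely_regular b (Sum.inr ⁻¹' K)
        (hK.preimage continuous_inr) hx
      refine ⟨Sum.elim (fun _ => 1) f, continuous_sumElim.2 ⟨continuous_const, hf⟩, by simpa using hfa, ?_⟩
      intro y hy
      rcases y with y | y
      · rfl
      · exact hfK hy
  have h2 : T2Space (α ⊕ β) := inferInstance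
  exact { toT0Space := inferInstance, toCompletelyRegularSpace := h1 }

/-- index space of the extra points -/
abbrev E : Type := ℕ × OnePoint ℕ

/-- the countably compact space -/
abbrev V : Type := X0 ⊕ OnePoint E

instance : T35Space V := t35_sum _ _

/-- the transformation from functions on the first space to functions on the second one -/
noncomputable def Tfun (f : V → ℝ) : V → ℝ :=
  Sum.elim (fun x => f (Sum.inl x)) (fun z => z.elim (f (Sum.inr OnePoint.infty))
    (fun e => f (Sum.inr (e : OnePoint E)) - f (Sum.inr OnePoint.infty)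
      + avg (fun x => f (Sum.inl x)) e.1 e.2))

/-- its inverse -/
noncomputable def Sfun (f : V → ℝ) : V → ℝ :=
  Sum.elim (fun x => f (Sum.inl x)) (fun z => z.elim (f (Sum.inr OnePoint.infty))
    (fun e => f (Sum.inr (e : OnePoint E)) + f (Sum.inr OnePoint.infty)
      - avg (fun x => f (Sum.inl x)) e.1 e.2))

lemma Tfun_inl (f : V → ℝ) (x : X0) : Tfun f (Sum.inl x) = f (Sum.inl x) := rfl
lemma Tfun_infty (f : V → ℝ) : Tfun f (Sum.inr OnePoint.infty) = f (Sum.inr OnePoint.infty) := rfl
lemma Tfun_coe (f : V → ℝ) (e : E) : Tfun f (Sum.inr (e : OnePoint E)) =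
    f (Sum.inr (e : OnePoint E)) - f (Sum.inr OnePoint.infty)
      + avg (fun x => f (Sum.inl x)) e.1 e.2 := rfl
lemma Sfun_inl (f : V → ℝ) (x : X0) : Sfun f (Sum.inl x) = f (Sum.inl x) := rfl
lemma Sfun_infty (f : V → ℝ) : Sfun f (Sum.inr OnePoint.infty) = f (Sum.inr OnePoint.infty) := rfl
lemma Sfun_coe (f : V → ℝ) (e : E) : Sfun f (Sum.inr (e : OnePoint E)) =
    f (Sum.inr (e : OnePoint E)) + f (Sum.inr OnePoint.infty)
      - avg (fun x => f (Sum.inl x)) e.1 e.2 := rfl

lemma Sfun_Tfun (f : V → ℝ) : Sfun (Tfun f) = f := by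
  funext w
  rcases w with x | z
  · rfl
  · induction z using OnePoint.rec with
    | infty => rfl
    | coe e =>
      rw [Sfun_coe, Tfun_coe, Tfun_infty]
      have : (fun x => Tfun f (Sum.inl x)) = (fun x => f (Sum.inl x)) := rfl
      rw [this]
      ring

lemma Tfun_Sfun (f : V → ℝ) : Tfun (Sfun f) = f := by
  funext w
  rcases w with x | z
  · rfl
  · induction z using OnePoint.rec with
    | infty => rfl
    | coe e =>
      rw [Tfun_coe, Sfun_coe, Sfun_infty]
      have : (fun x => Sfun f (Sum.inl x)) = (fun x => f (Sum.inl x)) := rfl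
      rw [this]
      ring

/-- the second space: same points, weak topology -/
def YY : Type := V

/-- the map defining the weak topology -/
noncomputable def emb : YY → (C(V, ℝ) → ℝ) := fun w f => Tfun f w

noncomputable instance : TopologicalSpace YY := TopologicalSpace.induced emb inferInstance

lemma emb_inducing : IsInducing emb := ⟨rfl⟩

/-- extend a function by zero on the left summand -/
noncomputable def extR (g : C(OnePoint E, ℝ)) : C(V, ℝ) :=
  ⟨Sum.elim (fun _ => 0) g, continuous_sumElim.2 ⟨continuous_const, g.continuous⟩⟩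

/-- extend a function by zero on the right summand -/
noncomputable def extL (g : C(X0, ℝ)) : C(V, ℝ) :=
  ⟨Sum.elim g (fun _ => 0), continuous_sumElim.2 ⟨g.continuous, continuous_const⟩⟩

lemma avg_zero (m : ℕ) (e : OnePoint ℕ) : avg (fun _ => 0) m e = 0 := by
  simp [avg]

lemma Tfun_extR_inl (g : C(OnePoint E, ℝ)) (x : X0) : Tfun (extR g) (Sum.inl x) = 0 := rfl
lemma Tfun_extR_infty (g : C(OnePoint E, ℝ)) :
    Tfun (extR g) (Sum.inr OnePoint.infty) = g OnePoint.infty := rfl
lemma Tfun_extR_coe (g : C(OnePoint E, ℝ)) (e : E) :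
    Tfun (extR g) (Sum.inr (e : OnePoint E)) = g (e : OnePoint E) - g OnePoint.infty := by
  rw [Tfun_coe]
  have : (fun x => (extR g) (Sum.inl x)) = (fun _ => (0 : ℝ)) := rfl
  rw [this, avg_zero]
  simp [extR]

lemma Tfun_extL_inl (g : C(X0, ℝ)) (x : X0) : Tfun (extL g) (Sum.inl x) = g x := rfl
lemma Tfun_extL_coe (g : C(X0, ℝ)) (e : E) :
    Tfun (extL g) (Sum.inr (e : OnePoint E)) = avg g e.1 e.2 := by
  rw [Tfun_coe]
  have : (fun x => (extL g) (Sum.inl x)) = (fun x => g x) := rfl
  rw [this]
  simp [extL]

lemma isCompact_below (M : ℕ) : IsCompact {e : E | e.1 < M} := by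
  have : {e : E | e.1 < M} = (Set.Iio M) ×ˢ (Set.univ : Set (OnePoint ℕ)) := by
    ext e; simp
  rw [this]
  exact (Set.finite_Iio M).isCompact.prod isCompact_univ

lemma isClosed_below (M : ℕ) : IsClosed {e : E | e.1 < M} := (isCompact_below M).isClosed

lemma below_compl_mem (M : ℕ) : {e : E | M ≤ e.1} ∈ coclosedCompact E := by
  rw [(hasBasis_coclosedCompact (X := E)).mem_iff]
  refine ⟨_, ⟨isClosed_below M, isCompact_below M⟩, fun e he => ?_⟩
  have : ¬ e.1 < M := he
  exact not_lt.1 this

lemma tendsto_fst_coclosedCompact : Tendsto (fun e : E => e.1) (coclosedCompact E) atTop :=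
  tendsto_atTop.2 fun M => below_compl_mem M

/-- sequences with the group number going to infinity converge to the point at infinity -/
lemma tendsto_infty (d : ℕ → OnePoint ℕ) :
    Tendsto (fun m => (((m, d m) : E) : OnePoint E)) atTop (𝓝 OnePoint.infty) := by
  refine OnePoint.tendsto_coe_infty.comp ?_
  rw [(hasBasis_coclosedCompact (X := E)).tendsto_right_iff]
  rintro K ⟨-, hK⟩
  have h1 : (Prod.fst '' K).Finite := (hK.image continuous_fst).finite_of_discrete
  obtain ⟨M, hM⟩ := h1.bddAbove
  filter_upwards [eventually_gt_atTop M] with m hm hmem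
  have := hM (mem_image_of_mem Prod.fst hmem)
  simp at this
  omega

/-- the block function -/
noncomputable def blk (m0 : ℕ) : C(OnePoint E, ℝ) :=
  ⟨fun z => z.elim 0 (fun e => if e.1 = m0 then 1 else 0), by
    rw [OnePoint.continuous_iff]
    constructor
    · refine tendsto_nhds_of_eventually_eq ?_
      filter_upwards [below_compl_mem (m0 + 1)] with e he
      have : m0 + 1 ≤ e.1 := he
      show (if e.1 = m0 then (1 : ℝ) else 0) = 0
      rw [if_neg (by omega)]
    · show Continuous (fun e : E => if e.1 = m0 then (1 : ℝ) else 0)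
      have h1 : Continuous (fun n : ℕ => if n = m0 then (1 : ℝ) else 0) := continuous_of_discreteTopology
      exact h1.comp continuous_fst⟩

lemma blk_coe (m0 : ℕ) (e : E) : blk m0 (e : OnePoint E) = if e.1 = m0 then 1 else 0 := rfl
lemma blk_infty (m0 : ℕ) : blk m0 OnePoint.infty = 0 := rfl

lemma emb_injective : Function.Injective emb := by
  intro w w' h
  have h' : ∀ f : C(V, ℝ), Tfun f w = Tfun f w' := fun f => congrFun h f
  have hone : ∀ x : X0, ∀ z : OnePoint E, ¬ (∀ f : C(V, ℝ), Tfun f (Sum.inl x) = Tfun f (Sum.inr z)) := by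
    intro x z hf
    induction z using OnePoint.rec with
    | infty =>
      have h1 := hf (extR (ContinuousMap.const _ 1))
      rw [Tfun_extR_inl, Tfun_extR_infty] at h1
      simp at h1
    | coe e =>
      have h1 := hf (extR (blk e.1))
      rw [Tfun_extR_inl, Tfun_extR_coe, blk_coe, blk_infty] at h1
      simp at h1
  rcases w with x | z
  · rcases w' with x' | z'
    · by_contra hne
      have hne' : x ≠ x' := fun h => hne (congrArg Sum.inl h)
      obtain ⟨f, hf, hfx⟩ := separatesPoints_continuous_of_t35Space hne'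
      exact hfx (h' (extL ⟨f, hf⟩))
    · exact absurd h' (hone x z')
  · rcases w' with x' | z'
    · exact absurd (fun f => (h' f).symm) (hone x' z)
    · induction z using OnePoint.rec with
      | infty =>
        induction z' using OnePoint.rec with
        | infty => rfl
        | coe e' =>
          exfalso
          have h1 := h' (extR (ContinuousMap.const _ 1))
          rw [Tfun_extR_infty, Tfun_extR_coe] at h1
          simp at h1
      | coe e =>
        induction z' using OnePoint.rec with
        | infty =>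
          exfalso
          have h1 := h' (extR (ContinuousMap.const _ 1))
          rw [Tfun_extR_infty, Tfun_extR_coe] at h1
          simp at h1
        | coe e' =>
          by_contra hne
          have hne' : (e : OnePoint E) ≠ (e' : OnePoint E) := fun h => hne (congrArg Sum.inr h)
          obtain ⟨f, hf, hfx⟩ := separatesPoints_continuous_of_t35Space hne'
          apply hfx
          have h1 := h' (extR ⟨f, hf⟩)
          rw [Tfun_extR_coe, Tfun_extR_coe] at h1
          simpa using h1

instance : T35Space YY := IsEmbedding.t35Space ⟨emb_inducing, emb_injective⟩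

lemma continuous_Tfun (f : C(V, ℝ)) : Continuous (fun w : YY => Tfun f w) :=
  (continuous_apply f).comp emb_inducing.continuous

/-- inclusion of the first part -/
def iL (x : X0) : YY := (Sum.inl x : V)
/-- inclusion of the second part -/
def iR (z : OnePoint E) : YY := (Sum.inr z : V)

lemma continuous_iL : Continuous iL := by
  rw [emb_inducing.continuous_iff, continuous_pi_iff]
  intro f
  exact f.continuous.comp continuous_inl

lemma continuous_avg' {f : X0 → ℝ} (hf : Continuous f) : Continuous (fun e : E => avg f e.1 e.2) := by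
  rw [continuous_prod_of_discrete_left]
  exact fun m => continuous_avg hf m

lemma continuous_iR : Continuous (fun e : E => iR (e : OnePoint E)) := by
  rw [emb_inducing.continuous_iff, continuous_pi_iff]
  intro f
  show Continuous (fun e : E => Tfun f (Sum.inr (e : OnePoint E)))
  simp only [Tfun_coe]
  have h1 : Continuous (fun e : E => f (Sum.inr (e : OnePoint E))) :=
    f.continuous.comp (continuous_inr.comp OnePoint.continuous_coe)
  have h2 : Continuous (fun e : E => avg (fun x => f (Sum.inl x)) e.1 e.2) :=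
    continuous_avg' (f.continuous.comp continuous_inl)
  exact (h1.sub continuous_const).add h2

/-- the key fact: on the second space values at the extra points are asymptotically averages -/
lemma key (h : C(YY, ℝ)) :
    Tendsto (fun e : E => h (iR (e : OnePoint E)) - avg (fun x => h (iL x)) e.1 e.2)
      (coclosedCompact E) (𝓝 0) := by
  set r : E → ℝ := fun e => h (iR (e : OnePoint E)) - avg (fun x => h (iL x)) e.1 e.2 with hr
  have hrc : Continuous r :=
    (h.continuous.comp continuous_iR).sub (continuous_avg' (h.continuous.comp continuous_iL))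
  rw [Metric.tendsto_nhds]
  intro ε hε
  by_contra hcon
  have h1 : ∀ M : ℕ, ∃ m, M ≤ m ∧ ∃ d : ℕ, ε / 2 < |r (m, (d : OnePoint ℕ))| := by
    intro M
    by_contra hM
    push Not at hM
    apply hcon
    filter_upwards [below_compl_mem M] with e he
    rw [Real.dist_eq, sub_zero]
    have h2 : ∀ d : OnePoint ℕ, |r (e.1, d)| ≤ ε / 2 := by
      have hcl : IsClosed {d : OnePoint ℕ | |r (e.1, d)| ≤ ε / 2} :=
        isClosed_le (continuous_abs.comp (hrc.comp (by fun_prop))) continuous_const
      have hden : DenseRange ((↑) : ℕ → OnePoint ℕ) := OnePoint.denseRange_coe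
      intro d
      exact hden.induction_on (p := fun d => |r (e.1, d)| ≤ ε / 2) d hcl (fun d => hM e.1 he d)
    have h3 := h2 e.2
    have h4 : r (e.1, e.2) = r e := rfl
    rw [h4] at h3
    linarith
  have h2 : ∃ᶠ m in atTop, ∃ d : ℕ, ε / 2 < |r (m, (d : OnePoint ℕ))| := by
    rw [frequently_atTop]
    exact h1
  set S : Set ℕ := {m | ∃ d : ℕ, ε / 2 < |r (m, (d : OnePoint ℕ))|} with hS
  have h3 : (atTop ⊓ 𝓟 S).NeBot := by
    rw [← frequently_mem_iff_neBot]
    exact h2
  obtain ⟨𝒰, h𝒰⟩ : ∃ 𝒰 : Ultrafilter ℕ, (𝒰 : Filter ℕ) ≤ atTop ⊓ 𝓟 S :=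
    ⟨Ultrafilter.of _, Ultrafilter.of_le _⟩
  have h𝒰1 : (𝒰 : Filter ℕ) ≤ atTop := h𝒰.trans inf_le_left
  have h𝒰2 : ∀ᶠ m in (𝒰 : Filter ℕ), m ∈ S := h𝒰 (mem_inf_of_right (mem_principal_self S))
  have h4 : ∃ d : ℕ → ℕ, ∀ m ∈ S, ε / 2 < |r (m, (d m : OnePoint ℕ))| := by
    classical
    refine ⟨fun m => if hm : m ∈ S then Classical.choose hm else 0, fun m hm => ?_⟩
    simp only [dif_pos hm]
    exact Classical.choose_spec hm
  obtain ⟨d, hd⟩ := h4
  obtain ⟨p, hp⟩ := exists_bulk_point d 𝒰 h𝒰1
  have h5 : Tendsto (fun m => iR (((m, (d m : OnePoint ℕ)) : E) : OnePoint E)) 𝒰 (𝓝 (iL p)) := by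
    rw [emb_inducing.tendsto_nhds_iff, tendsto_pi_nhds]
    intro f
    show Tendsto (fun m => Tfun f (Sum.inr (((m, (d m : OnePoint ℕ)) : E) : OnePoint E))) 𝒰
      (𝓝 (f (Sum.inl p)))
    simp only [Tfun_coe]
    have h6 : Tendsto (fun m => f (Sum.inr (((m, (d m : OnePoint ℕ)) : E) : OnePoint E))) 𝒰
        (𝓝 (f (Sum.inr OnePoint.infty))) :=
      ((f.continuous.comp continuous_inr).tendsto _).comp
        ((tendsto_infty fun m => (d m : OnePoint ℕ)).mono_left h𝒰1)
    have h7 : Tendsto (fun m => avg (fun x => f (Sum.inl x)) m (d m : OnePoint ℕ)) 𝒰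
        (𝓝 (f (Sum.inl p))) := tendsto_avg hp (f.continuous.comp continuous_inl)
    have h8 := (h6.sub_const (f (Sum.inr OnePoint.infty))).add h7
    rw [sub_self, zero_add] at h8
    exact h8
  have h6 : Tendsto (fun m => h (iR (((m, (d m : OnePoint ℕ)) : E) : OnePoint E))) 𝒰 (𝓝 (h (iL p))) :=
    (h.continuous.tendsto _).comp h5
  have h7 : Tendsto (fun m => avg (fun x => h (iL x)) m (d m : OnePoint ℕ)) 𝒰 (𝓝 (h (iL p))) :=
    tendsto_avg hp (h.continuous.comp continuous_iL)
  have h8 : Tendsto (fun m => r (m, (d m : OnePoint ℕ))) 𝒰 (𝓝 0) := by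
    have := h6.sub h7
    simpa using this
  have h9 : ∀ᶠ m in (𝒰 : Filter ℕ), |r (m, (d m : OnePoint ℕ))| < ε / 2 := by
    have := (Metric.tendsto_nhds.1 h8) (ε / 2) (by positivity)
    simpa [Real.dist_eq] using this
  obtain ⟨m, hm, hm'⟩ := (h9.and h𝒰2).exists
  exact absurd (hd m hm') (not_lt.2 hm.le)

lemma continuous_Sfun (h : C(YY, ℝ)) : Continuous (Sfun h : V → ℝ) := by
  rw [continuous_sum_dom]
  constructor
  · exact h.continuous.comp continuous_iL
  · rw [OnePoint.continuous_iff]
    constructor
    · show Tendsto (fun e : E => Sfun h (Sum.inr (e : OnePoint E))) (coclosedCompact E)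
        (𝓝 (h (iR OnePoint.infty)))
      have h1 := (key h).add_const (h (iR OnePoint.infty))
      rw [zero_add] at h1
      refine h1.congr fun e => ?_
      rw [Sfun_coe]
      show h (iR (e : OnePoint E)) - avg (fun x => h (iL x)) e.1 e.2 + h (iR OnePoint.infty)
        = h (iR (e : OnePoint E)) + h (iR OnePoint.infty) - avg (fun x => h (iL x)) e.1 e.2
      ring
    · show Continuous (fun e : E => Sfun h (Sum.inr (e : OnePoint E)))
      simp only [Sfun_coe]
      exact ((h.continuous.comp continuous_iR).add continuous_const).sub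
        (continuous_avg' (h.continuous.comp continuous_iL))

lemma avg_add (f g : X0 → ℝ) (m : ℕ) (e : OnePoint ℕ) :
    avg (fun x => f x + g x) m e = avg f m e + avg g m e := by
  simp only [avg, Finset.sum_add_distrib, add_div]

lemma avg_smul (c : ℝ) (f : X0 → ℝ) (m : ℕ) (e : OnePoint ℕ) :
    avg (fun x => c * f x) m e = c * avg f m e := by
  simp only [avg, ← Finset.mul_sum, mul_div_assoc]

/-- the linear bijection -/
noncomputable def T : C(V, ℝ) ≃ₗ[ℝ] C(YY, ℝ) where
  toFun f := ⟨Tfun f, continuous_Tfun f⟩
  invFun h := ⟨Sfun h, continuous_Sfun h⟩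
  map_add' f g := by
    ext w
    show Tfun (f + g) w = Tfun f w + Tfun g w
    rcases w with x | z
    · rfl
    · induction z using OnePoint.rec with
      | infty => rfl
      | coe e =>
        rw [Tfun_coe, Tfun_coe, Tfun_coe]
        have : (fun x => (f + g) (Sum.inl x)) = (fun x => f (Sum.inl x) + g (Sum.inl x)) := rfl
        simp only [ContinuousMap.coe_add, Pi.add_apply] at this ⊢
        rw [avg_add]
        ring
  map_smul' c f := by
    ext w
    show Tfun (c • f) w = c * Tfun f w
    rcases w with x | z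
    · rfl
    · induction z using OnePoint.rec with
      | infty => rfl
      | coe e =>
        rw [Tfun_coe, Tfun_coe]
        simp only [Pi.smul_apply, smul_eq_mul]
        rw [avg_smul]
        ring
  left_inv f := by
    ext w
    exact congrFun (Sfun_Tfun f) w
  right_inv h := by
    ext w
    exact congrFun (Tfun_Sfun h) w

lemma continuous_eval {α : Type} [TopologicalSpace α] (x : α) :
    @Continuous C(α, ℝ) ℝ
      (TopologicalSpace.induced (fun f : C(α, ℝ) => (f : α → ℝ)) inferInstance) _
      (fun f => f x) := by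
  let _ : TopologicalSpace C(α, ℝ) :=
    TopologicalSpace.induced (fun f : C(α, ℝ) => (f : α → ℝ)) inferInstance
  exact (continuous_apply x).comp continuous_induced_dom

end Pool.Agent.H.MP_d4b900_gt
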