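import Pool.Agent.H.MP_d4b900_gt.Diag

set_option autoImplicit false

open Filter Topology Set

namespace Pool.Agent.H.MP_d4b900_gt

open Classical in
/-- trace of an ultrafilter on the algebra -/
noncomputable def ev (𝒱 : Ultrafilter (ℕ × ℕ)) : BA → Bool := fun A => decide (A.1 ∈ 𝒱)

lemma ev_true {𝒱 : Ultrafilter (ℕ × ℕ)} {A : BA} : ev 𝒱 A = true ↔ A.1 ∈ 𝒱 := by
  simp [ev]

lemma ev_false {𝒱 : Ultrafilter (ℕ × ℕ)} {A : BA} : ev 𝒱 A = false ↔ A.1 ∉ 𝒱 := by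
  simp [ev]

lemma continuous_ev : Continuous ev := by
  refine continuous_pi fun A => ?_
  rw [continuous_discrete_rng]
  intro b
  cases b with
  | true =>
    have : (fun 𝒱 : Ultrafilter (ℕ × ℕ) => ev 𝒱 A) ⁻¹' {true} = {𝒱 | A.1 ∈ 𝒱} := by
      ext 𝒱
      simp [ev_true]
    rw [this]
    exact ultrafilter_isOpen_basic A.1
  | false =>
    have : (fun 𝒱 : Ultrafilter (ℕ × ℕ) => ev 𝒱 A) ⁻¹' {false} = {𝒱 | A.1ᶜ ∈ 𝒱} := by
      ext 𝒱
      simp [ev_false, Ultrafilter.compl_mem_iff_notMem]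
    rw [this]
    exact ultrafilter_isOpen_basic A.1ᶜ

/-- the underlying set of the locally compact, countably compact space -/
def K0 : Set (BA → Bool) :=
  {χ | ∃ 𝒱 : Ultrafilter (ℕ × ℕ), ev 𝒱 = χ ∧ ∃ C : BA, Idl C.1 ∧ C.1 ∈ 𝒱}

/-- the locally compact, countably compact space -/
abbrev X0 : Type := ↥K0

lemma cluster_of_frequently (u : ℕ → X0) (C : BA) (hC : Idl C.1)
    (h : ∃ᶠ n in atTop, (u n).1 C = true) : ∃ x : X0, MapClusterPt x atTop u := by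
  have hcomp : IsCompact (ev '' {𝒱 | C.1 ∈ 𝒱}) :=
    (ultrafilter_isClosed_basic C.1).isCompact.image continuous_ev
  have hfreq : ∃ᶠ n in atTop, (fun n => (u n).1) n ∈ ev '' {𝒱 | C.1 ∈ 𝒱} := by
    refine h.mono fun n hn => ?_
    obtain ⟨𝒱, h𝒱, -⟩ := (u n).2
    refine ⟨𝒱, ?_, h𝒱⟩
    rw [← h𝒱] at hn
    exact ev_true.1 hn
  obtain ⟨χ, ⟨𝒱, h𝒱, hχ⟩, hcl⟩ := hcomp.exists_mapClusterPt_of_frequently hfreq
  refine ⟨⟨χ, 𝒱, hχ, C, hC, h𝒱⟩, ?_⟩
  rw [mapClusterPt_iff_frequently] at hcl ⊢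
  intro s hs
  rw [nhds_subtype_eq_comap, mem_comap] at hs
  obtain ⟨t, ht, hts⟩ := hs
  exact (hcl t ht).mono fun n hn => hts hn

/-- `X0` is countably compact -/
lemma cluster (u : ℕ → X0) : ∃ x : X0, MapClusterPt x atTop u := by
  choose 𝒱 h𝒱 C hC hCV using fun n => (u n).2
  by_cases hs : ∃ᶠ n in atTop, ∃ C : Set (ℕ × ℕ), Tame C ∧ Small C ∧ C ∈ 𝒱 n
  · obtain ⟨D, hDt, hDs, hD⟩ := diag_small 𝒱 hs
    refine cluster_of_frequently u ⟨D, hDt, hDs.dich⟩ (Or.inl hDs) (hD.mono fun n hn => ?_)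
    rw [← h𝒱 n]
    exact ev_true.2 hn
  · rw [not_frequently] at hs
    have hg : ∀ n, ∃ g : ℕ → ℕ, (¬ ∃ C : Set (ℕ × ℕ), Tame C ∧ Small C ∧ C ∈ 𝒱 n) → Lg g ∈ 𝒱 n := by
      intro n
      by_cases hn : ∃ C : Set (ℕ × ℕ), Tame C ∧ Small C ∧ C ∈ 𝒱 n
      · exact ⟨fun _ => 0, fun h => absurd hn h⟩
      · rcases hC n with h | ⟨g, hg⟩
        · exact absurd ⟨_, (C n).2.1, h, hCV n⟩ hn
        · exact ⟨g, fun _ => hg ▸ hCV n⟩
    choose g hg using hg
    have hf : ∃ᶠ n in atTop, Lg (g n) ∈ 𝒱 n ∧ bel (2 ^ n) ∉ 𝒱 n := by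
      apply Eventually.frequently
      filter_upwards [hs] with n hn
      exact ⟨hg n hn, fun hb => hn ⟨_, tame_bel _, small_bel _, hb⟩⟩
    obtain ⟨g', hg'⟩ := diag_Lg 𝒱 g hf
    refine cluster_of_frequently u (LgB g') (Or.inr ⟨g', rfl⟩) (hg'.mono fun n hn => ?_)
    rw [← h𝒱 n]
    exact ev_true.2 hn

/-- continuous real functions on a space in which sequences cluster are bounded -/
lemma bounded_of_cluster {α : Type} [TopologicalSpace α]
    (hα : ∀ u : ℕ → α, ∃ x : α, MapClusterPt x atTop u) (f : α → ℝ) (hf : Continuous f) :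
    ∃ B : ℝ, 0 ≤ B ∧ ∀ x, |f x| ≤ B := by
  by_contra hcon
  push Not at hcon
  choose u hu using fun n : ℕ => hcon n (Nat.cast_nonneg n)
  obtain ⟨x, hx⟩ := hα u
  rw [mapClusterPt_iff_frequently] at hx
  have h1 : {y | |f y| < |f x| + 1} ∈ 𝓝 x :=
    (isOpen_lt (continuous_abs.comp hf) continuous_const).mem_nhds (by simp)
  obtain ⟨N, hN⟩ := exists_nat_gt (|f x| + 1)
  obtain ⟨n, hn, hn'⟩ := ((hx _ h1).and_eventually (eventually_ge_atTop N)).exists
  have h2 := hu n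
  have h3 : |f (u n)| < |f x| + 1 := hn
  have h4 : (N : ℝ) ≤ n := by exact_mod_cast hn'
  linarith

/-- points of the columns -/
noncomputable def pt (j : ℕ) : OnePoint ℕ → X0 := fun e =>
  e.elim ⟨ev (Ultrafilter.map (fun d => (j, d)) (hyperfilter ℕ)), _, rfl, colB j,
      Or.inl (small_col j), by
        rw [Ultrafilter.mem_map]
        exact Filter.univ_mem' fun d => rfl⟩
    (fun d => ⟨ev (pure (j, d)), _, rfl, colB j, Or.inl (small_col j), rfl⟩)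

lemma pt_coe_apply (j d : ℕ) (A : BA) : (pt j (d : OnePoint ℕ)).1 A = true ↔ (j, d) ∈ A.1 := by
  show ev (pure (j, d)) A = true ↔ _
  rw [ev_true]
  rfl

lemma pt_infty_apply (j : ℕ) (A : BA) :
    (pt j OnePoint.infty).1 A = true ↔ ∀ᶠ d in atTop, (j, d) ∈ A.1 := by
  show ev (Ultrafilter.map (fun d => (j, d)) (hyperfilter ℕ)) A = true ↔ _
  rw [ev_true, Ultrafilter.mem_map]
  constructor
  · intro h
    rcases A.2.1 j with h' | h'
    · exact h'
    · exfalso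
      have h1 : ∀ᶠ d in (hyperfilter ℕ : Filter ℕ), (j, d) ∉ A.1 := h'.filter_mono Nat.hyperfilter_le_atTop
      obtain ⟨d, hd, hd'⟩ := (h1.and h).exists
      exact hd hd'
  · intro h
    exact h.filter_mono Nat.hyperfilter_le_atTop

lemma continuous_pt (j : ℕ) : Continuous (pt j) := by
  rw [OnePoint.continuous_iff_from_nat, tendsto_subtype_rng, tendsto_pi_nhds]
  intro A
  refine tendsto_nhds_of_eventually_eq ?_
  rcases A.2.1 j with h | h
  · have h1 := (pt_infty_apply j A).2 h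
    filter_upwards [h] with d hd
    rw [h1]
    exact (pt_coe_apply j d A).2 hd
  · have h1 : (pt j OnePoint.infty).1 A = false := by
      by_contra h2
      rw [Bool.not_eq_false] at h2
      obtain ⟨d, hd, hd'⟩ := (h.and ((pt_infty_apply j A).1 h2)).exists
      exact hd hd'
    filter_upwards [h] with d hd
    rw [h1]
    by_contra h2
    rw [Bool.not_eq_false] at h2
    exact hd ((pt_coe_apply j d A).1 h2)

/-- average over a group -/
noncomputable def avg (f : X0 → ℝ) (m : ℕ) (e : OnePoint ℕ) : ℝ :=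
  (∑ j ∈ G m, f (pt j e)) / 2 ^ m

lemma continuous_avg {f : X0 → ℝ} (hf : Continuous f) (m : ℕ) : Continuous (avg f m) := by
  unfold avg
  exact (continuous_finsetSum _ fun j _ => hf.comp (continuous_pt j)).div_const _

/-- the bulk filter -/
def bulk (F : Filter ℕ) (d : ℕ → ℕ) : Filter (ℕ × ℕ) where
  sets := {S | ∀ ε : ℝ, 0 < ε → ∀ᶠ m in F, (cnt Sᶜ m (d m) : ℝ) ≤ ε * 2 ^ m}
  univ_sets := fun ε hε => Eventually.of_forall fun m => by
    rw [compl_univ, cnt_eq_zero (by simp)]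
    simp; positivity
  sets_of_superset := fun {S T} hS hST ε hε => (hS ε hε).mono fun m hm =>
    le_trans (by exact_mod_cast cnt_mono (compl_subset_compl.2 hST) m (d m)) hm
  inter_sets := fun {S T} hS hT ε hε => by
    filter_upwards [hS (ε / 2) (by positivity), hT (ε / 2) (by positivity)] with m h1 h2
    rw [compl_inter]
    have h3 : (cnt (Sᶜ ∪ Tᶜ) m (d m) : ℝ) ≤ cnt Sᶜ m (d m) + cnt Tᶜ m (d m) := by
      exact_mod_cast cnt_union _ _ m (d m)
    linarith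

lemma mem_bulk {F : Filter ℕ} {d : ℕ → ℕ} {S : Set (ℕ × ℕ)} :
    S ∈ bulk F d ↔ ∀ ε : ℝ, 0 < ε → ∀ᶠ m in F, (cnt Sᶜ m (d m) : ℝ) ≤ ε * 2 ^ m := Iff.rfl

lemma bulk_neBot (F : Filter ℕ) [F.NeBot] (d : ℕ → ℕ) : (bulk F d).NeBot := by
  rw [Filter.neBot_iff]
  intro hbot
  have h : (∅ : Set (ℕ × ℕ)) ∈ bulk F d := Filter.empty_mem_iff_bot.2 hbot
  rw [mem_bulk] at h
  obtain ⟨m, hm⟩ := (h (1 / 2) (by norm_num)).exists
  have h1 := cnt_add_compl ∅ m (d m)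
  rw [cnt_eq_zero (S := ∅) (by simp), zero_add] at h1
  rw [h1] at hm
  push_cast at hm
  have : (0 : ℝ) < 2 ^ m := by positivity
  linarith

lemma bulk_dich (𝒰 : Ultrafilter ℕ) (h𝒰 : (𝒰 : Filter ℕ) ≤ atTop) (d : ℕ → ℕ) (A : BA) :
    A.1 ∈ bulk 𝒰 d ∨ A.1ᶜ ∈ bulk 𝒰 d := by
  rcases Ultrafilter.em 𝒰 (fun m => (cnt A.1 m (d m) : ℝ) ≤ (1 / 4) * 2 ^ m) with h | h
  · right
    rw [mem_bulk]
    intro ε hε
    rw [compl_compl]
    filter_upwards [h, h𝒰 (A.2.2 (min ε (1 / 2)) (by positivity))] with m hm hm'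
    have h2 : (0 : ℝ) < 2 ^ m := by positivity
    rcases hm' (d m) with h3 | h3
    · exact h3.trans (mul_le_mul_of_nonneg_right (min_le_left _ _) h2.le)
    · exfalso
      have h4 : (cnt A.1 m (d m) : ℝ) + cnt A.1ᶜ m (d m) = 2 ^ m := by
        exact_mod_cast cnt_add_compl A.1 m (d m)
      have h5 : (cnt A.1ᶜ m (d m) : ℝ) ≤ (1 / 2) * 2 ^ m :=
        h3.trans (mul_le_mul_of_nonneg_right (min_le_right _ _) h2.le)
      linarith
  · left
    rw [mem_bulk]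
    intro ε hε
    filter_upwards [h, h𝒰 (A.2.2 (min ε (1 / 4)) (by positivity))] with m hm hm'
    have h2 : (0 : ℝ) < 2 ^ m := by positivity
    rcases hm' (d m) with h3 | h3
    · exact absurd (h3.trans (mul_le_mul_of_nonneg_right (min_le_right _ _) h2.le)) hm
    · exact h3.trans (mul_le_mul_of_nonneg_right (min_le_left _ _) h2.le)

lemma Lg_mem_bulk (F : Filter ℕ) (d : ℕ → ℕ) : Lg (fun m => d m + 1) ∈ bulk F d := by
  rw [mem_bulk]
  intro ε hε
  refine Eventually.of_forall fun m => ?_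
  rw [cnt_eq_zero]
  · simp; positivity
  · intro j hj hjS
    apply hjS
    show d m < d (Nat.log 2 j) + 1
    rw [log_of_mem_G hj]
    omega

/-- the point of `X0` given by an ultrafilter finer than the bulk filter -/
noncomputable def bpt (d : ℕ → ℕ) (𝒱 : Ultrafilter (ℕ × ℕ)) (h : Lg (fun m => d m + 1) ∈ 𝒱) : X0 :=
  ⟨ev 𝒱, 𝒱, rfl, LgB (fun m => d m + 1), Or.inr ⟨fun m => d m + 1, rfl⟩, h⟩

lemma bpt_apply (d : ℕ → ℕ) (𝒱 : Ultrafilter (ℕ × ℕ)) (h : Lg (fun m => d m + 1) ∈ 𝒱) (A : BA) :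
    (bpt d 𝒱 h).1 A = true ↔ A.1 ∈ 𝒱 := ev_true

/-- the bulk of the groups converges to a point of `X0` -/
lemma exists_bulk_point (d : ℕ → ℕ) (𝒰 : Ultrafilter ℕ) (h𝒰 : (𝒰 : Filter ℕ) ≤ atTop) :
    ∃ p : X0, Tendsto (fun x : ℕ × ℕ => pt x.1 (x.2 : OnePoint ℕ)) (bulk 𝒰 d) (𝓝 p) := by
  have hne := bulk_neBot (𝒰 : Filter ℕ) d
  obtain ⟨𝒱, hle⟩ : ∃ 𝒱 : Ultrafilter (ℕ × ℕ), (𝒱 : Filter (ℕ × ℕ)) ≤ bulk 𝒰 d :=
    ⟨Ultrafilter.of (bulk 𝒰 d), Ultrafilter.of_le _⟩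
  have hL : Lg (fun m => d m + 1) ∈ 𝒱 := hle (Lg_mem_bulk _ d)
  refine ⟨bpt d 𝒱 hL, ?_⟩
  rw [tendsto_subtype_rng, tendsto_pi_nhds]
  intro A
  refine tendsto_nhds_of_eventually_eq ?_
  rcases bulk_dich 𝒰 h𝒰 d A with h | h
  · filter_upwards [h] with x hx
    have h1 := (bpt_apply d 𝒱 hL A).2 (hle h)
    rw [h1]
    exact (pt_coe_apply x.1 x.2 A).2 hx
  · filter_upwards [h] with x hx
    have h1 : (bpt d 𝒱 hL).1 A = false := by
      by_contra h2
      rw [Bool.not_eq_false] at h2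
      exact Ultrafilter.compl_mem_iff_notMem.1 (hle h) ((bpt_apply d 𝒱 hL A).1 h2)
    rw [h1]
    by_contra h2
    rw [Bool.not_eq_false] at h2
    exact hx ((pt_coe_apply x.1 x.2 A).1 h2)

/-- averages of continuous functions converge to the value at the bulk point -/
lemma tendsto_avg {d : ℕ → ℕ} {𝒰 : Ultrafilter ℕ} {p : X0}
    (hp : Tendsto (fun x : ℕ × ℕ => pt x.1 (x.2 : OnePoint ℕ)) (bulk 𝒰 d) (𝓝 p))
    {f : X0 → ℝ} (hf : Continuous f) :
    Tendsto (fun m => avg f m (d m : OnePoint ℕ)) 𝒰 (𝓝 (f p)) := by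
  obtain ⟨B, hB0, hB⟩ := bounded_of_cluster cluster f hf
  rw [Metric.tendsto_nhds]
  intro ε hε
  have h1 : Tendsto (fun x : ℕ × ℕ => f (pt x.1 (x.2 : OnePoint ℕ))) (bulk 𝒰 d) (𝓝 (f p)) :=
    (hf.tendsto p).comp hp
  rw [Metric.tendsto_nhds] at h1
  have h2 := h1 (ε / 4) (by positivity)
  have h3 := (mem_bulk.1 h2) (ε / (8 * (B + 1))) (by positivity)
  filter_upwards [h3] with m hm
  set S : Set (ℕ × ℕ) := {x | dist (f (pt x.1 (x.2 : OnePoint ℕ))) (f p) < ε / 4} with hS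
  have h4 : avg f m (d m : OnePoint ℕ) - f p = (∑ j ∈ G m, (f (pt j (d m : OnePoint ℕ)) - f p)) / 2 ^ m := by
    unfold avg
    rw [Finset.sum_sub_distrib, Finset.sum_const, card_G, sub_div, nsmul_eq_mul]
    push_cast
    rw [mul_div_cancel_left₀ _ (by positivity)]
  rw [Real.dist_eq, h4, abs_div, abs_of_pos (show (0 : ℝ) < 2 ^ m by positivity),
    div_lt_iff₀ (by positivity)]
  refine (Finset.abs_sum_le_sum_abs _ _).trans_lt ?_
  classical
  rw [← Finset.sum_filter_add_sum_filter_not (G m) (fun j => (j, d m) ∈ S)]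
  have h5 : ∑ j ∈ (G m).filter (fun j => (j, d m) ∈ S), |f (pt j (d m : OnePoint ℕ)) - f p|
      ≤ 2 ^ m * (ε / 4) := by
    refine (Finset.sum_le_card_nsmul _ _ (ε / 4) fun j hj => ?_).trans ?_
    · have := (Finset.mem_filter.1 hj).2
      simp only [hS, Set.mem_ofPred_eq, Real.dist_eq] at this
      exact this.le
    · rw [nsmul_eq_mul]
      apply mul_le_mul_of_nonneg_right _ (by positivity)
      have : ((G m).filter (fun j => (j, d m) ∈ S)).card ≤ 2 ^ m := by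
        rw [← card_G m]; exact Finset.card_filter_le _ _
      exact_mod_cast this
  have h6 : ∑ j ∈ (G m).filter (fun j => ¬ (j, d m) ∈ S), |f (pt j (d m : OnePoint ℕ)) - f p|
      ≤ (cnt Sᶜ m (d m)) * (2 * B) := by
    refine (Finset.sum_le_card_nsmul _ _ (2 * B) fun j hj => ?_).trans ?_
    · have h7 := hB (pt j (d m : OnePoint ℕ))
      have h8 := hB p
      rw [abs_le] at h7 h8 ⊢
      constructor <;> linarith [h7.1, h7.2, h8.1, h8.2]
    · rw [nsmul_eq_mul]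
      apply le_of_eq
      congr 2
      unfold cnt
      congr 1
      ext j
      simp
  have h9 : (cnt Sᶜ m (d m) : ℝ) * (2 * B) ≤ (ε / 4) * 2 ^ m := by
    have h10 : (cnt Sᶜ m (d m) : ℝ) * (2 * B) ≤ (ε / (8 * (B + 1)) * 2 ^ m) * (2 * B) :=
      mul_le_mul_of_nonneg_right hm (by positivity)
    refine h10.trans ?_
    have h11 : ε / (8 * (B + 1)) * 2 ^ m * (2 * B) = (ε / 4 * 2 ^ m) * (B / (B + 1)) := by
      field_simp
      ring
    rw [h11]
    have h12 : B / (B + 1) ≤ 1 := by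
      rw [div_le_one (by positivity)]
      linarith
    have h13 : (0 : ℝ) ≤ ε / 4 * 2 ^ m := by positivity
    nlinarith
  have h14 : (0 : ℝ) < 2 ^ m := by positivity
  nlinarith

end Pool.Agent.H.MP_d4b900_gt
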